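import Pool.Agent.helper66.AZD2.Step

/-!
# Condition (R_2) off a zero-dimensional set and dimension

If `X` is a separable metric space and `C` is a countable (or just zero-dimensional) subset such
that `X \ C` satisfies (R_2) (or just (R_1)), then `dim X ≤ 1`.
-/

set_option autoImplicit false

open Set Filter Topology

universe u v

namespace Pool.Agent.Results.MP_0edc6b_gt.DimAtMostOne

/-- `Y` is not connected between `A` and `B`. -/
def NotConnectedBetween {Y : Type u} [TopologicalSpace Y] (A B : Set Y) : Prop :=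
  ∃ K : Set Y, IsClopen K ∧ A ⊆ K ∧ K ∩ B = ∅

/-- `ℬ` is a basis of closed sets of `Y`. -/
def IsClosedBasis {Y : Type u} [TopologicalSpace Y] (ℬ : Set (Set Y)) : Prop :=
  (∀ U ∈ ℬ, IsClosed U) ∧ ∀ (p : Y), ∀ V ∈ 𝓝 p, ∃ U ∈ ℬ, U ⊆ V ∧ p ∈ interior U

/-- Condition (R_1). -/
def ConditionR1 (Y : Type u) [TopologicalSpace Y] : Prop :=
  ∃ ℬ : Set (Set Y), IsClosedBasis ℬ ∧ ∀ U ∈ ℬ, ∀ x : Y, x ∉ U → NotConnectedBetween {x} U

/-- Condition (R_2). -/
def ConditionR2 (Y : Type u) [TopologicalSpace Y] : Prop :=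
  ∃ ℬ : Set (Set Y), IsClosedBasis ℬ ∧
    ∀ U ∈ ℬ, ∀ W ∈ ℬ, Disjoint U W → NotConnectedBetween U W

/-- `Y` is zero-dimensional (or empty): the clopen sets form a base. -/
def ZeroDimensional (Y : Type u) [TopologicalSpace Y] : Prop :=
  ∀ (y : Y) (O : Set Y), IsOpen O → y ∈ O → ∃ W : Set Y, IsClopen W ∧ y ∈ W ∧ W ⊆ O

/-- Covering dimension at most `n`: every open cover (indexed by any type `κ`) shrinks to an open
cover no point of which lies in more than `n + 1` members. -/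
def CoveringDimensionLE (Y : Type u) [TopologicalSpace Y] (n : ℕ) : Prop :=
  ∀ (κ : Type v) (O : κ → Set Y), (∀ i, IsOpen (O i)) → (⋃ i, O i) = univ →
    ∃ V : κ → Set Y, (∀ i, IsOpen (V i)) ∧ (∀ i, V i ⊆ O i) ∧ (⋃ i, V i) = univ ∧
      ∀ y : Y, {i | y ∈ V i}.encard ≤ n + 1

open Pool.Agent.helper66.AZD Pool.Agent.helper66.AZD2

theorem r1_of_r2 {Y : Type u} [TopologicalSpace Y] (h : ConditionR2 Y) : ConditionR1 Y := by
  obtain ⟨ℬ, hℬ, h2⟩ := h
  refine ⟨ℬ, hℬ, fun U hU x hx => ?_⟩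
  obtain ⟨W, hW, hWU, hxW⟩ := hℬ.2 x Uᶜ ((hℬ.1 U hU).isOpen_compl.mem_nhds hx)
  obtain ⟨K, hK, hUK, hKW⟩ := h2 U hU W hW
    (Set.disjoint_left.2 fun y hy hy' => hWU hy' hy)
  refine ⟨Kᶜ, hK.compl, ?_, ?_⟩
  · rintro y rfl hy
    have : y ∈ K ∩ W := ⟨hy, interior_subset hxW⟩
    rw [hKW] at this
    exact this
  · rw [Set.eq_empty_iff_forall_notMem]
    rintro y ⟨hy, hyU⟩
    exact hy (hUK hyU)

theorem clOn_image {X : Type u} [TopologicalSpace X] {A : Set X} {K : Set ↥A} (hK : IsClopen K) :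
    ClOn A (Subtype.val '' K) := by
  refine ⟨?_, ?_⟩
  · rintro x _ ⟨x', hx', rfl⟩
    exact mem_nhds_subtype_iff_nhdsWithin.1 (hK.2.mem_nhds hx')
  · intro x hx hxK
    have hxK' : (⟨x, hx⟩ : ↥A) ∈ Kᶜ := fun h => hxK ⟨_, h, rfl⟩
    have := mem_nhds_subtype_iff_nhdsWithin.1 (hK.1.isOpen_compl.mem_nhds hxK')
    filter_upwards [this] with y hy hy'
    obtain ⟨y1, hy1, rfl⟩ := hy
    obtain ⟨y2, hy2, h⟩ := hy'
    exact hy1 (Subtype.val_injective h ▸ hy2)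

theorem almostZeroDim_of_r1 {X : Type u} [TopologicalSpace X] (A : Set X)
    (h : ConditionR1 ↥A) : AlmostZeroDim A := by
  obtain ⟨ℬ, hℬ, h1⟩ := h
  intro a ha N hN
  have hN' : (Subtype.val ⁻¹' N : Set ↥A) ∈ 𝓝 (⟨a, ha⟩ : ↥A) :=
    continuous_subtype_val.continuousAt.preimage_mem_nhds hN
  obtain ⟨U, hUB, hUN, haU⟩ := hℬ.2 ⟨a, ha⟩ _ hN'
  obtain ⟨O, hO, hOU⟩ := isOpen_induced_iff.1 (isOpen_interior (s := U))
  refine ⟨Subtype.val '' U, image_subset_iff.2 hUN, O, hO, ?_, ?_, ?_⟩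
  · have : (⟨a, ha⟩ : ↥A) ∈ Subtype.val ⁻¹' O := by rw [hOU]; exact haU
    exact this
  · rintro y ⟨hyO, hyA⟩
    have : (⟨y, hyA⟩ : ↥A) ∈ Subtype.val ⁻¹' O := hyO
    rw [hOU] at this
    exact ⟨⟨y, hyA⟩, interior_subset this, rfl⟩
  · intro z hz hzU
    have hzU' : (⟨z, hz⟩ : ↥A) ∉ U := fun h => hzU ⟨_, h, rfl⟩
    obtain ⟨K, hK, hzK, hKU⟩ := h1 U hUB ⟨z, hz⟩ hzU'
    refine ⟨Subtype.val '' K, ⟨_, hzK rfl, rfl⟩, clOn_image hK, ?_⟩
    rw [Set.disjoint_left]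
    rintro _ ⟨y1, hy1, rfl⟩ ⟨y2, hy2, h⟩
    have hy : y1 ∈ K ∩ U := ⟨hy1, Subtype.val_injective h ▸ hy2⟩
    rw [hKU] at hy
    exact hy

theorem zd_of_zeroDimensional {X : Type u} [TopologicalSpace X] {C : Set X}
    (h : ZeroDimensional ↥C) : ZD C := by
  intro z hz N hN
  obtain ⟨O, hON, hO, hzO⟩ := mem_nhds_iff.1 hN
  obtain ⟨W, hW, hzW, hWO⟩ := h ⟨z, hz⟩ (Subtype.val ⁻¹' O) (hO.preimage continuous_subtype_val) hzO
  refine ⟨Subtype.val '' W, ⟨_, hzW, rfl⟩, clOn_image hW, ?_⟩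
  rintro x _ ⟨y, hy, rfl⟩
  exact hON (hWO hy)

theorem zd_of_countable {X : Type u} [MetricSpace X] {C : Set X} (h : C.Countable) : ZD C := by
  intro z hz N hN
  obtain ⟨δ, hδ, hδN⟩ := Metric.mem_nhds_iff.1 hN
  obtain ⟨P, hzP, hP, hPs⟩ := countable_piece continuous_id h hδ (z := z)
  exact ⟨P, hzP, hP, fun x hx hxP => hδN (hPs x hx hxP z hz hzP)⟩

theorem zeroDimensional_of_zd {X : Type u} [TopologicalSpace X] {C : Set X} (h : ZD C) :
    ZeroDimensional ↥C := by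
  rintro ⟨y, hy⟩ O hO hyO
  obtain ⟨O', hO', rfl⟩ := isOpen_induced_iff.1 hO
  obtain ⟨P, hyP, hP, hPO⟩ := h y hy O' (hO'.mem_nhds hyO)
  refine ⟨Subtype.val ⁻¹' P, ⟨?_, ?_⟩, hyP, fun x hx => hPO x.1 x.2 hx⟩
  · rw [← isOpen_compl_iff, isOpen_iff_mem_nhds]
    intro x hx
    exact mem_nhds_subtype_iff_nhdsWithin.2 (mem_of_superset
      (inter_mem (hP.2 x.1 x.2 hx) self_mem_nhdsWithin)
      (fun w hw => ⟨⟨w, hw.2⟩, hw.1, rfl⟩))
  · rw [isOpen_iff_mem_nhds]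
    intro x hx
    exact mem_nhds_subtype_iff_nhdsWithin.2 (mem_of_superset
      (inter_mem (hP.1 x.1 x.2 hx) self_mem_nhdsWithin)
      (fun w hw => ⟨⟨w, hw.2⟩, hw.1, rfl⟩))

/-- Let `X` be a separable metric space and `C` a countable, or more generally zero-dimensional,
subset such that `X \ C` satisfies condition (R_2), or more generally (R_1). Then `X` has covering
dimension at most one, and any closed set has small open neighbourhoods with zero-dimensional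
frontiers. -/
theorem result :
    ∀ (X : Type u) [MetricSpace X] [TopologicalSpace.SeparableSpace X] (C : Set X),
      (C.Countable ∨ ZeroDimensional ↥C) →
      (ConditionR2 ↥(Cᶜ : Set X) ∨ ConditionR1 ↥(Cᶜ : Set X)) →
      CoveringDimensionLE.{u, v} X 1 ∧
        ∀ E V : Set X, IsClosed E → IsOpen V → E ⊆ V →
          ∃ U : Set X, IsOpen U ∧ E ⊆ U ∧ closure U ⊆ V ∧ ZeroDimensional ↥(frontier U) := by
  intro X _ _ C hC hR
  have : SecondCountableTopology X := UniformSpace.secondCountable_of_separable X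
  have hC' : ZD C := hC.elim zd_of_countable zd_of_zeroDimensional
  have hA : AlmostZeroDim Cᶜ := almostZeroDim_of_r1 _ (hR.elim r1_of_r2 id)
  have H := exists_partition_zd (A := Cᶜ) (C := C) (fun y hy => hy) hC' hA
  refine ⟨?_, ?_⟩
  · intro κ O hO hcov
    obtain ⟨Z0, Z1, h0, h1, h01⟩ := decomposition H
    obtain ⟨V, hVo, hVO, hVc, hV⟩ := cover_of_decomposition h0 h1 h01 O hO
      (fun x => mem_iUnion.1 (by rw [hcov]; trivial))
    refine ⟨V, hVo, hVO, eq_univ_of_forall fun x => mem_iUnion.2 (hVc x), ?_⟩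
    intro y
    by_contra hlt
    have h3 : (3 : ℕ∞) ≤ {i | y ∈ V i}.encard := by
      have h2 : ((1 : ℕ) : ℕ∞) + 1 < {i | y ∈ V i}.encard := not_le.1 hlt
      have h4 := Order.add_one_le_of_lt h2
      refine le_trans ?_ h4
      norm_num
    obtain ⟨t, hts, ht⟩ := Set.exists_subset_encard_eq h3
    obtain ⟨i, j, k, hij, hik, hjk, rfl⟩ := Set.encard_eq_three.1 ht
    have hi : y ∈ V i := hts (by simp)
    have hj : y ∈ V j := hts (by simp)
    have hk : y ∈ V k := hts (by simp)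
    rcases hV y i j k hi hj hk with h | h | h
    · exact hij h
    · exact hjk h
    · exact hik h
  · intro E V hE hV hEV
    obtain ⟨U, hU, hEU, hUV, hfr⟩ := H E Vᶜ hE hV.isClosed_compl
      (Set.disjoint_left.2 fun x hx hx' => hx' (hEV hx))
    refine ⟨U, hU, hEU, fun x hx => ?_, zeroDimensional_of_zd hfr⟩
    by_contra hxV
    exact Set.disjoint_left.1 hUV hx hxV

end Pool.Agent.Results.MP_0edc6b_gt.DimAtMostOne
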